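import Pool.Agent.H46.PN.Family
import Pool.Graph.R_pool_sql_team_seeded_1acbe0a2.Y178.HP.DM

set_option autoImplicit false

/-!
# Poisson varieties with the symplectic resolution `𝔸²`: the equality in degree zero means normality

Let `X` be an affine Poisson variety with a symplectic resolution `ρ : 𝔸² → X`, for any symplectic Poisson structure on
`𝔸²`. Then the equality of Q1 in degree zero, `dim HP_0(X) = dim H²(𝔸²)` (`= 0`), holds if and only if `X` is normal, and
then `ρ` is an isomorphism. So every non-normal `X` of this kind is a counterexample. For every natural number `N` there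
is such an `X` with `dim HP_0(X) = N`: the variety of the algebra of all polynomials in `x, y` whose partial derivatives
vanish at the points `(0, 0), ..., (N - 1, 0)`, with the bracket of `ℂ[x, y]`.

Proof. Let `A ⊆ B = ℂ[x, y]` be the algebra of `X`. The conductor `c` of `A` in `B` is stable under the derivations
`{f, ·}`, `f ∈ A`, and so are the minimal prime ideals over it. None of them has height one: if `(h)` is stable under
`{f, ·}`, `f ∈ A`, then the derivation `{h, ·}` modulo `(h)` vanishes on `A` and therefore on `B`, which is integral over
`A`. As the bracket is nondegenerate, `(h)` would be stable under the partial derivatives. So the minimal prime ideals are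
the ideals of points, and `{A, A}` vanishes at these points. For the example one shows that `{A, A}` consists of all
the elements of `A` that vanish at the `N` points.
-/

namespace Pool.Agent.Results.MP_fc9dee_ag.NormalIff

open Pool.Agent.TH212 Pool.Agent.Y178.HP

/-- The coordinate ring of the affine plane. -/
abbrev Plane : Type := MvPolynomial (Fin 2) ℂ

/-- The equality of Q1 in degree zero for the resolution `𝔸² → X`, `X = Spec O`, computed with the closed embedding
`i : X → Spec B`: the dimensions of `HP^{DR}_0(X) = M(X, i) ⊗_{D(B)} B = B / (J · B)` (`J` the right ideal generated by the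
functions vanishing on `X` and the vector fields that are tangent to `X` and Hamiltonian on `X`) and of the second
singular cohomology of the space of complex points of the plane, with the analytic topology, are equal. -/
def EqualityInDegreeZero {O B : Type} [CommRing O] [Algebra ℂ O] [CommRing B] [Algebra ℂ B] (P : PoissonBracket O)
    (i : B →ₐ[ℂ] O) : Prop :=
  Module.rank ℂ (B ⧸ idealJO P i) = Module.rank ℂ (cohomology 2 (Points Plane))

/-- 1. For every affine Poisson scheme `X = Spec O` with a symplectic resolution `ρ : 𝔸² → X` (`Q` is any symplectic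
Poisson bracket on `ℂ[x, y]`) the ring `O` is a finitely generated domain, and the following are equivalent: the equality
of Q1 in degree zero (computed with any closed embedding into a smooth affine variety); `O / {O, O} = 0`; `1` is a sum of
brackets; `X` is normal; `ρ` is an isomorphism.
2. The second cohomology of the plane vanishes.
3. For every `N` there is an affine Poisson variety `X` with a symplectic resolution `𝔸² → X` and `dim HP_0(X) = N`. The
bracket on the plane is `{f, g} = f_y g_x - f_x g_y`, and `X` is given by the algebra of the polynomials whose partial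
derivatives vanish at the points `(i, 0)`, `i < N`. For every closed embedding `i : X → Spec B` into a smooth affine
variety the space `HP^{DR}_0(X) = M(X, i) ⊗_{D(B)} B`, defined with differential operators, has the dimension `N`, too. -/
theorem result :
    (∀ (O : Type) [CommRing O] [Algebra ℂ O] (P : PoissonBracket O) (Q : PoissonBracket Plane)
      (ρ : O →ₐ[ℂ] Plane), IsSymplecticResolution P Q ρ →
      IsDomain O ∧ Algebra.FiniteType ℂ O ∧
      (∀ (B : Type) [CommRing B] [Algebra ℂ B] [Algebra.Smooth ℂ B] (i : B →ₐ[ℂ] O), Function.Surjective i →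
        (EqualityInDegreeZero P i ↔ IsIntegrallyClosed O)) ∧
      (Subsingleton (O ⧸ P.brackets) ↔ IsIntegrallyClosed O) ∧
      ((1 : O) ∈ P.brackets ↔ IsIntegrallyClosed O) ∧
      (Function.Bijective ρ ↔ IsIntegrallyClosed O)) ∧
    Module.rank ℂ (cohomology 2 (Points Plane)) = 0 ∧
    (∀ N : ℕ, ∃ (O : Subalgebra ℂ Plane) (P : PoissonBracket O) (Q : PoissonBracket Plane),
      (∀ f : Plane, f ∈ O ↔ ∀ i < N, ∀ j, MvPolynomial.eval ![(i : ℂ), 0] (MvPolynomial.pderiv j f) = 0) ∧
      (∀ f g, Q.br f g = MvPolynomial.pderiv 1 f * MvPolynomial.pderiv 0 g -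
        MvPolynomial.pderiv 0 f * MvPolynomial.pderiv 1 g) ∧
      IsDomain O ∧ Algebra.FiniteType ℂ O ∧ IsSymplecticResolution P Q O.val ∧
      Module.rank ℂ (O ⧸ P.brackets) = N ∧
      ∀ (B : Type) [CommRing B] [Algebra ℂ B] [Algebra.Smooth ℂ B] (i : B →ₐ[ℂ] O),
        Function.Surjective i → Module.rank ℂ (B ⧸ idealJO P i) = N) := by
  have hcoh : Subsingleton (cohomology 2 (Points Plane)) :=
    ModuleCat.subsingleton_of_isZero (isZero_cohomology _ (by norm_num))
  refine ⟨fun O _ _ P Q ρ h => ?_, rank_subsingleton' ℂ _, fun N => ?_⟩
  · have hdom : IsDomain O := h.injective.isDomain (ρ : O →+* Plane)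
    have h1 := Pool.Agent.H46.PN.subsingleton_iff h
    have h2 := Pool.Agent.H46.PN.surjective_iff h
    refine ⟨hdom, Pool.Agent.H46.PN.finiteType_of h, fun B _ _ _ i hi => ?_, h1.trans h2, ?_, ?_⟩
    · unfold EqualityInDegreeZero
      rw [Pool.Agent.H46.PN.rank_HPDR0 P i hi]
      exact (Pool.Agent.H46.PN.rank_iff.trans h1).trans h2
    · rw [← h2]
      constructor
      · intro hone
        by_contra hsurj
        exact Pool.Agent.H46.PN.one_notMem (Pool.Agent.H46.PN.integral_of_proper h.proper) h.symplectic
          h.poisson h.birational h.injective hsurj hone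
      · intro hsurj
        have h4 := Submodule.Quotient.subsingleton_iff.1 (h1.2 hsurj)
        rw [h4]
        trivial
    · rw [← h2]
      exact ⟨fun h => h.2, fun hs => ⟨h.injective, hs⟩⟩
  · exact ⟨Pool.Agent.H46.PN.AN N, Pool.Agent.H46.PN.PA N, PR, fun f => Iff.rfl, pb_apply, inferInstance,
      Pool.Agent.H46.PN.finiteType_AN, Pool.Agent.H46.PN.resolution_AN, Pool.Agent.H46.PN.rank_HP0,
      fun B _ _ _ i hi => by
        rw [Pool.Agent.H46.PN.rank_HPDR0 _ i hi]
        exact Pool.Agent.H46.PN.rank_HP0⟩

end Pool.Agent.Results.MP_fc9dee_ag.NormalIff
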